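import Pool.Agent.H88.OT.Targets
import Pool.Agent.H58.MZ.SY
import Pool.Agent.H58.MZ.SH
import Pool.Agent.H2.PZ.VV

/-! Module S1: the sum `Sy` at `s = 1`. -/

set_option autoImplicit false

open Filter Topology

namespace Pool.Agent.H32.OT

open Pool.Agent.H28.MZ (V Sy zq)

/-- the points -/
noncomputable def sn (n : ℕ) : ℝ := 1 + 1 / ((n : ℝ) + 5)

theorem sn_gt (n : ℕ) : 1 < sn n := by
  unfold sn
  have : 0 < 1 / ((n : ℝ) + 5) := by positivity
  linarith

theorem sn_le (n : ℕ) : sn n ≤ 6 / 5 := by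
  unfold sn
  have h : (0 : ℝ) ≤ n := Nat.cast_nonneg n
  have : 1 / ((n : ℝ) + 5) ≤ 1 / 5 := one_div_le_one_div_of_le (by norm_num) (by linarith)
  linarith

theorem sn_tendsto : Tendsto sn atTop (𝓝 1) := by
  unfold sn
  have h1 : Tendsto (fun n : ℕ => (n : ℝ) + 5) atTop atTop :=
    tendsto_atTop_add_const_right _ _ tendsto_natCast_atTop_atTop
  have h2 : Tendsto (fun n : ℕ => 1 / ((n : ℝ) + 5)) atTop (𝓝 0) := by
    have h3 := (tendsto_inv_atTop_zero (𝕜 := ℝ)).comp h1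
    refine h3.congr fun n => ?_
    simp only [Function.comp, one_div]
  simpa using h2.const_add 1

theorem Sy_tendsto (q : ℕ) (Y : ℝ) (hY : 0 < Y) :
    Tendsto (fun n : ℕ => Sy q (sn n) Y) atTop (𝓝 (Sy q 1 Y)) := by
  classical
  obtain ⟨C, hC, hV⟩ := Pool.Agent.H2.PZ.V_decay 1 (by norm_num)
  unfold Sy
  apply tendsto_tsum_of_dominated_convergence (bound := fun l : ℕ => C * Y * (l : ℝ) ^ (-2 : ℝ))
  · exact (Real.summable_nat_rpow.mpr (by norm_num)).mul_left (C * Y)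
  · intro l
    by_cases hl : 1 ≤ l ∧ Nat.Coprime l q
    · simp only [if_pos hl]
      apply Tendsto.mul_const
      have hl0 : (0 : ℝ) < l := by exact_mod_cast hl.1
      exact (Real.continuous_const_rpow hl0.ne').continuousAt.tendsto.comp
        (sn_tendsto.neg)
    · simp only [if_neg hl]
      exact tendsto_const_nhds
  · filter_upwards with n
    intro l
    by_cases hl : 1 ≤ l ∧ Nat.Coprime l q
    · simp only [if_pos hl]
      have hl1 : (1 : ℝ) ≤ l := by exact_mod_cast hl.1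
      have hl0 : (0 : ℝ) < l := by linarith
      have h1 : (l : ℝ) ^ (-(sn n)) ≤ 1 :=
        Real.rpow_le_one_of_one_le_of_nonpos hl1 (by have := sn_gt n; linarith)
      have h2 : 0 ≤ (l : ℝ) ^ (-(sn n)) := by positivity
      have h3 : 0 ≤ V ((l : ℝ) ^ 2 / Y) := Pool.Agent.H2.PZ.V_nonneg _
      have h4 := hV ((l : ℝ) ^ 2 / Y) (by positivity)
      have h5 : C * ((l : ℝ) ^ 2 / Y) ^ (-1 : ℝ) = C * Y * (l : ℝ) ^ (-2 : ℝ) := by
        rw [Real.rpow_neg_one, Real.rpow_neg hl0.le, inv_div]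
        norm_num
        field_simp
      rw [Real.norm_eq_abs, abs_of_nonneg (mul_nonneg h2 h3)]
      calc _ ≤ 1 * V ((l : ℝ) ^ 2 / Y) := by gcongr
        _ = V ((l : ℝ) ^ 2 / Y) := one_mul _
        _ ≤ _ := by rw [← h5]; exact h4
    · simp only [if_neg hl, norm_zero]
      positivity

theorem g_deriv (Y : ℝ) (hY : 0 < Y) :
    HasDerivAt (fun x : ℝ => Y ^ (x / 2) * Real.exp ((x / 2) ^ 2)) (Real.log Y / 2) 0 := by
  have h0 : HasDerivAt (fun x : ℝ => x / 2) (1 / 2) 0 := by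
    simpa using (hasDerivAt_id (0 : ℝ)).div_const 2
  have h1 := h0.const_rpow (a := Y) hY
  have h2 := (h0.pow 2).exp
  have h3 := h1.mul h2
  refine h3.congr_deriv ?_
  simp
  ring

theorem g_tendsto (Y : ℝ) (hY : 0 < Y) :
    Tendsto (fun n : ℕ => (Y ^ ((1 - sn n) / 2) * Real.exp (((1 - sn n) / 2) ^ 2) - 1) /
      (1 - sn n)) atTop (𝓝 (Real.log Y / 2)) := by
  have h := (hasDerivAt_iff_tendsto_slope_zero.1 (g_deriv Y hY))
  have h2 : Tendsto (fun n : ℕ => 1 - sn n) atTop (𝓝[≠] 0) := by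
    apply tendsto_nhdsWithin_iff.2
    constructor
    · simpa using sn_tendsto.const_sub 1
    · filter_upwards with n
      have := sn_gt n
      simp only [Set.mem_compl_iff, Set.mem_singleton_iff]
      linarith
  have h3 := h.comp h2
  refine h3.congr fun n => ?_
  simp only [Function.comp, zero_add, smul_eq_mul, zero_div, Real.rpow_zero]
  have e : Real.exp ((0 : ℝ) ^ 2) = 1 := by norm_num
  rw [e, mul_one]
  exact (div_eq_inv_mul _ _).symm

/-- (S1) -/
theorem pf_S1 : Pool.Agent.H88.OT.T_S1 := by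
  intro q hq
  have hSY : Pool.Agent.H28.MZ.T_SY :=
    Pool.Agent.H58.MZ.sy Pool.Agent.H2.PZ.vv (Pool.Agent.H58.MZ.sh Pool.Agent.H2.PZ.vv)
  set f : ℝ := (Nat.totient q : ℝ) / q with hf
  set E : ℕ → ℝ := fun n => zq q (sn n) + f / (1 - sn n) with hE
  set u : ℝ → ℕ → ℝ := fun Y n => Sy q (sn n) Y -
    f * ((Y ^ ((1 - sn n) / 2) * Real.exp (((1 - sn n) / 2) ^ 2) - 1) / (1 - sn n)) with hu
  have hut : ∀ Y : ℝ, 0 < Y → Tendsto (u Y) atTop (𝓝 (Sy q 1 Y - f * (Real.log Y / 2))) :=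
    fun Y hY => (Sy_tendsto q Y hY).sub ((g_tendsto Y hY).const_mul f)
  have key : ∀ A : ℝ, 1 ≤ A → ∃ C : ℝ, 0 < C ∧ ∀ Y : ℝ, 0 < Y → ∀ n, |u Y n - E n| ≤ C * Y ^ (-A) := by
    intro A hA
    obtain ⟨C, hC, h⟩ := hSY q A hq hA
    refine ⟨C, hC, fun Y hY n => ?_⟩
    have h1 := sn_gt n
    have h2 := h (sn n) Y (by linarith) (sn_le n) h1.ne' hY
    refine le_trans (le_of_eq ?_) h2
    congr 1
    simp only [hu, hE]
    rw [← hf]
    have h3 : 1 - sn n ≠ 0 := by linarith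
    field_simp
    ring
  obtain ⟨C1, hC1, h1⟩ := key 1 le_rfl
  have hcau : CauchySeq E := by
    rw [Metric.cauchySeq_iff]
    intro ε hε
    set Y : ℝ := 4 * C1 / ε with hY
    have hY0 : 0 < Y := by positivity
    have hY1 : C1 * Y ^ (-1 : ℝ) = ε / 4 := by
      rw [Real.rpow_neg_one, hY]
      field_simp
    obtain ⟨N, hN⟩ := (Metric.cauchySeq_iff.1 (hut Y hY0).cauchySeq) (ε / 2) (by positivity)
    refine ⟨N, fun m hm n hn => ?_⟩
    have h2 := h1 Y hY0 m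
    have h3 := h1 Y hY0 n
    have h4 := hN m hm n hn
    rw [Real.dist_eq] at h4 ⊢
    rw [hY1] at h2 h3
    rw [abs_le] at h2 h3
    rw [abs_lt] at h4 ⊢
    constructor <;> linarith [h2.1, h2.2, h3.1, h3.2, h4.1, h4.2]
  obtain ⟨C₀, hC₀⟩ := cauchySeq_tendsto_of_complete hcau
  refine ⟨C₀, fun A hA => ?_⟩
  obtain ⟨C, hC, h⟩ := key A hA
  refine ⟨C, hC, fun Y hY => ?_⟩
  have h2 := ((hut Y hY).sub hC₀).abs
  have h3 := le_of_tendsto h2 (Eventually.of_forall fun n => h Y hY n)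
  refine le_trans (le_of_eq ?_) h3
  congr 1
  ring

end Pool.Agent.H32.OT
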